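import Mathlib

set_option autoImplicit false

namespace Pool.Agent.T2H92.MB

open ArithmeticFunction

/-- `true` if none of the `2 ^ k` integers `lo, lo + 1, ...` divides `p` -/
def chk : ℕ → ℕ → ℕ → Bool
  | 0, lo, p => Nat.blt 0 (p % lo)
  | k + 1, lo, p => chk k lo p && chk k (lo + 2 ^ k) p

theorem chk_spec : ∀ (k lo p : ℕ), chk k lo p = true → ∀ m, lo ≤ m → m < lo + 2 ^ k → ¬ m ∣ p
  | 0, lo, p, h, m, h1, h2 => by
      have : m = lo := by simp at h2; omega
      subst this
      have h' : 0 < p % m := by simpa [chk, Nat.blt_eq] using h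
      intro hd
      rw [Nat.mod_eq_zero_of_dvd hd] at h'
      exact absurd h' (lt_irrefl _)
  | k + 1, lo, p, h, m, h1, h2 => by
      have h' : chk k lo p = true ∧ chk k (lo + 2 ^ k) p = true := by
        simpa [chk, Bool.and_eq_true] using h
      rcases lt_or_ge m (lo + 2 ^ k) with hm | hm
      · exact chk_spec k lo p h'.1 m h1 hm
      · exact chk_spec k _ p h'.2 m hm (by rw [pow_succ] at h2; omega)

theorem prime_of_chk (p k : ℕ) (h2 : 2 ≤ p) (h : chk k 2 p = true) (hs : p < (2 + 2 ^ k) ^ 2) :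
    p.Prime := by
  rw [Nat.prime_def_le_sqrt]
  refine ⟨h2, fun m hm hs' => chk_spec k 2 p h m hm ?_⟩
  have : Nat.sqrt p < 2 + 2 ^ k := by
    rw [Nat.sqrt_lt']
    exact hs
  omega

theorem mu2 {p q : ℕ} (hp : p.Prime) (hq : q.Prime) (hc : p.Coprime q) :
    moebius (p * q) = 1 := by
  rw [isMultiplicative_moebius.map_mul_of_coprime hc, moebius_apply_prime hp,
    moebius_apply_prime hq]
  norm_num

theorem mu4 {p q r s : ℕ} (hp : p.Prime) (hq : q.Prime) (hr : r.Prime) (hs : s.Prime)
    (h1 : p.Coprime q) (h2 : r.Coprime s) (h3 : (p * q).Coprime (r * s)) :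
    moebius (p * q * (r * s)) = 1 := by
  rw [isMultiplicative_moebius.map_mul_of_coprime h3, mu2 hp hq h1, mu2 hr hs h2]
  norm_num

theorem p2 : Nat.Prime 2 := by norm_num

theorem p5 : Nat.Prime 5 := by norm_num

theorem p13 : Nat.Prime 13 := by norm_num

theorem p17 : Nat.Prime 17 := by norm_num

theorem p29 : Nat.Prime 29 := by norm_num

theorem p37 : Nat.Prime 37 := by norm_num

theorem p41 : Nat.Prime 41 := by norm_num

theorem p61 : Nat.Prime 61 := by norm_num

theorem p73 : Nat.Prime 73 := by norm_num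

theorem p157 : Nat.Prime 157 := by norm_num

theorem p929 : Nat.Prime 929 := by norm_num

theorem p3613 : Nat.Prime 3613 := by norm_num

theorem p3833 : Nat.Prime 3833 := by norm_num

theorem p9749 : Nat.Prime 9749 := by norm_num

theorem p19469 : Nat.Prime 19469 := by norm_num

theorem p21977 : Nat.Prime 21977 := by norm_num

theorem p36241 : Nat.Prime 36241 := by norm_num

theorem p37097 : Nat.Prime 37097 := by norm_num

theorem p45413 : Nat.Prime 45413 := by norm_num

theorem p57041 : Nat.Prime 57041 := by norm_num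

theorem p100469 : Nat.Prime 100469 := by norm_num

theorem p100613 : Nat.Prime 100613 := by norm_num

theorem p303337 : Nat.Prime 303337 := by norm_num

theorem p351413 : Nat.Prime 351413 := by norm_num

theorem p352021 : Nat.Prime 352021 := by norm_num

theorem p1995649 : Nat.Prime 1995649 := by norm_num

theorem p3325253 : Nat.Prime 3325253 := by norm_num

theorem p5412761 : Nat.Prime 5412761 := by norm_num

theorem p5557457 : Nat.Prime 5557457 := by norm_num

theorem p37170401 : Nat.Prime 37170401 :=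
  prime_of_chk _ 13 (by norm_num) (by decide +kernel) (by norm_num)

theorem p52385497 : Nat.Prime 52385497 :=
  prime_of_chk _ 13 (by norm_num) (by decide +kernel) (by norm_num)

theorem p1278974441 : Nat.Prime 1278974441 :=
  prime_of_chk _ 16 (by norm_num) (by decide +kernel) (by norm_num)

theorem p6923793973 : Nat.Prime 6923793973 :=
  prime_of_chk _ 17 (by norm_num) (by decide +kernel) (by norm_num)

theorem run13 (j : ℕ) (hj : j < 13) : moebius ((448094 + j) ^ 2 + 1) = 1 := by
  interval_cases j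
  · rw [show (448094 + 0) ^ 2 + 1 = 100613 * 1995649 by norm_num]
    exact mu2 p100613 p1995649 (by norm_num)
  · rw [show (448094 + 1) ^ 2 + 1 = 2 * 61 * (36241 * 45413) by norm_num]
    exact mu4 p2 p61 p36241 p45413 (by norm_num) (by norm_num) (by norm_num)
  · rw [show (448094 + 2) ^ 2 + 1 = 29 * 6923793973 by norm_num]
    exact mu2 p29 p6923793973 (by norm_num)
  · rw [show (448094 + 3) ^ 2 + 1 = 2 * 5 * (3613 * 5557457) by norm_num]
    exact mu4 p2 p5 p3613 p5557457 (by norm_num) (by norm_num) (by norm_num)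
  · rw [show (448094 + 4) ^ 2 + 1 = 5 * 41 * (9749 * 100469) by norm_num]
    exact mu4 p5 p41 p9749 p100469 (by norm_num) (by norm_num) (by norm_num)
  · rw [show (448094 + 5) ^ 2 + 1 = 2 * 17 * (19469 * 303337) by norm_num]
    exact mu4 p2 p17 p19469 p303337 (by norm_num) (by norm_num) (by norm_num)
  · rw [show (448094 + 6) ^ 2 + 1 = 3833 * 52385497 by norm_num]
    exact mu2 p3833 p52385497 (by norm_num)
  · rw [show (448094 + 7) ^ 2 + 1 = 2 * 37 * (73 * 37170401) by norm_num]
    exact mu4 p2 p37 p73 p37170401 (by norm_num) (by norm_num) (by norm_num)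
  · rw [show (448094 + 8) ^ 2 + 1 = 5 * 13 * (929 * 3325253) by norm_num]
    exact mu4 p5 p13 p929 p3325253 (by norm_num) (by norm_num) (by norm_num)
  · rw [show (448094 + 9) ^ 2 + 1 = 2 * 5 * (57041 * 352021) by norm_num]
    exact mu4 p2 p5 p57041 p352021 (by norm_num) (by norm_num) (by norm_num)
  · rw [show (448094 + 10) ^ 2 + 1 = 37097 * 5412761 by norm_num]
    exact mu2 p37097 p5412761 (by norm_num)
  · rw [show (448094 + 11) ^ 2 + 1 = 2 * 13 * (21977 * 351413) by norm_num]
    exact mu4 p2 p13 p21977 p351413 (by norm_num) (by norm_num) (by norm_num)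
  · rw [show (448094 + 12) ^ 2 + 1 = 157 * 1278974441 by norm_num]
    exact mu2 p157 p1278974441 (by norm_num)

theorem window (n : ℕ) : ∃ j < 14, (25 : ℕ) ∣ (n + j) ^ 2 + 1 := by
  have h : ∀ r < 25, ∃ j < 14, ((r + j) ^ 2 + 1) % 25 = 0 := by decide
  obtain ⟨j, hj, h25⟩ := h (n % 25) (Nat.mod_lt _ (by norm_num))
  refine ⟨j, hj, Nat.dvd_of_mod_eq_zero ?_⟩
  rw [Nat.add_mod, Nat.pow_mod, Nat.add_mod n j]
  rw [Nat.add_mod, Nat.pow_mod, Nat.add_mod (n % 25) j] at h25
  simpa using h25

theorem window_mu (n : ℕ) : ∃ j < 14, moebius ((n + j) ^ 2 + 1) = 0 := by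
  obtain ⟨j, hj, h⟩ := window n
  refine ⟨j, hj, moebius_eq_zero_of_not_squarefree fun hs => ?_⟩
  have := hs 5 (by simpa using h)
  exact absurd (Nat.isUnit_iff.1 this) (by norm_num)

end Pool.Agent.T2H92.MB
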